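import Pool.Agent.Helper66.HK.Stmts

/-! Sticky Kakeya sets, module INQ: the final inequality. -/

namespace Pool.Agent.Helper91.HK

open Finset Pool.Agent.Helper69.RK Pool.Agent.Helper66.HK

/-- subadditivity for a finite family -/
theorem inq_sub (hE1 : ST_E1) (hE2 : ST_E2) (Ω ι α γ : Type) [Fintype Ω] [Fintype ι]
    (μ : Ω → ℝ) (f : ι → Ω → α) (g : Ω → γ) (hμ : ∀ ω, 0 ≤ μ ω) :
    CH μ (fun ω i => f i ω) g ≤ ∑ i, CH μ (f i) g := by
  classical
  have key : ∀ s : Finset ι,
      CH μ (fun ω => fun i => if i ∈ s then some (f i ω) else none) g ≤ ∑ i ∈ s, CH μ (f i) g := by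
    intro s
    induction s using Finset.induction_on with
    | empty =>
      rw [hE2.2.2 Ω _ γ μ _ g hμ (by intro ω ω' _ _ _; simp)]
      simp
    | insert i s hi ih =>
      rw [Finset.sum_insert hi]
      have e1 := hE2.1 Ω (ι → Option α) ((ι → Option α) × α) γ μ
        (fun ω => fun j => if j ∈ insert i s then some (f j ω) else none)
        (fun ω => ((fun j => if j ∈ s then some (f j ω) else none), f i ω)) g hμ (by
          intro ω ω' _ _ h
          simp only [Prod.mk.injEq] at h
          obtain ⟨⟨h1, h2⟩, h3⟩ := h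
          funext j
          by_cases hj : j = i
          · subst hj
            simp [h2]
          · have h4 := congrFun h1 j
            simp only [Finset.mem_insert, hj, false_or]
            exact h4)
      obtain ⟨_, e2, _⟩ := hE1 Ω (ι → Option α) α γ μ
        (fun ω => fun j => if j ∈ s then some (f j ω) else none) (f i) g hμ
      obtain ⟨_, _, e3⟩ := hE1 Ω α (ι → Option α) γ μ (f i)
        (fun ω => fun j => if j ∈ s then some (f j ω) else none) g hμ
      linarith
  have e := hE2.1 Ω (ι → α) (ι → Option α) γ μ (fun ω i => f i ω)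
    (fun ω => fun i => if i ∈ (Finset.univ : Finset ι) then some (f i ω) else none) g hμ (by
      intro ω ω' _ _ h
      simp only [Prod.mk.injEq] at h
      funext j
      have h4 := congrFun h.1 j
      simpa using h4)
  exact e.trans (key univ)

theorem inq_card (k : ℕ) :
    ((Finset.univ : Finset {S : Finset (Fin (2 * k + 1)) // S.card ≤ k + 1}).card : ℝ) =
      4 ^ k + ((2 * k + 1).choose (k + 1) : ℝ) := by
  classical
  have h1 : (Finset.univ : Finset {S : Finset (Fin (2 * k + 1)) // S.card ≤ k + 1}).card =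
      4 ^ k + (2 * k + 1).choose (k + 1) := by
    rw [Finset.card_univ, Fintype.card_subtype, Finset.card_filter]
    have h2 := Finset.sum_powerset_apply_card (fun i : ℕ => if i ≤ k + 1 then (1 : ℕ) else 0)
      (x := (Finset.univ : Finset (Fin (2 * k + 1))))
    rw [Finset.powerset_univ] at h2
    rw [h2, Finset.card_univ, Fintype.card_fin]
    have h3 : ∑ i ∈ range (2 * k + 1 + 1), (2 * k + 1).choose i • (if i ≤ k + 1 then (1 : ℕ) else 0) =
        ∑ i ∈ range (k + 1 + 1), (2 * k + 1).choose i := by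
      rw [← Finset.sum_filter_add_sum_filter_not (range (2 * k + 1 + 1)) (fun i => i ≤ k + 1)]
      have h4 : ∑ i ∈ (range (2 * k + 1 + 1)).filter (fun i => ¬ i ≤ k + 1),
          (2 * k + 1).choose i • (if i ≤ k + 1 then (1 : ℕ) else 0) = 0 := by
        apply Finset.sum_eq_zero
        intro i hi
        rw [Finset.mem_filter] at hi
        rw [if_neg hi.2]
        simp
      rw [h4, add_zero]
      rcases Nat.eq_zero_or_pos k with hk | hk
      · subst hk
        decide
      · have h5 : (range (2 * k + 1 + 1)).filter (fun i => i ≤ k + 1) = range (k + 1 + 1) := by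
          ext i
          rw [Finset.mem_filter, Finset.mem_range, Finset.mem_range]
          omega
        rw [h5]
        apply Finset.sum_congr rfl
        intro i hi
        rw [Finset.mem_range] at hi
        rw [if_pos (by omega)]
        simp
    rw [h3, Finset.sum_range_succ, Nat.sum_range_choose_halfway]
  rw [h1]
  push_cast
  ring

theorem st_INQ (h1 : ST_LWR) (h2 : ST_KV) (h3 : ST_IID) (h4 : ST_E1) (h5 : ST_E2) (h6 : ST_E5) :
    ST_INQ := by
  classical
  intro m k
  obtain ⟨C, hC0, hC⟩ := h1 m k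
  refine ⟨C, hC0, ?_⟩
  intro n w γ ν κ s Ω ct kt _ μ c K a x t Λ p hwn hκ hs hcd
  obtain ⟨Ω', hfin, μ', π, hI⟩ := h3 Ω kt (Finset (Fin (2 * k + 1))) μ K hcd.nn
  have hdt : ∀ S, Dep μ K (t S) := by
    intro S ω ω' hω hω' he
    exact hcd.ct S ω ω' hω hω' (hcd.kc ω ω' hω hω' he)
  have hlow := hC n w κ s Ω Ω' kt μ μ' π K a x t p hwn hκ hs hcd.nn hcd.ms hcd.ab hcd.xb hcd.tb hdt
    hcd.hp hcd.pb hcd.ps hI
  have hn0 : (0 : ℝ) ≤ n := Nat.cast_nonneg n
  have hsn : 0 ≤ s * n := mul_nonneg hs hn0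
  have hsub := inq_sub h4 h5 Ω' {S : Finset (Fin (2 * k + 1)) // S.card ≤ k + 1} (Fin m → ℤ) kt μ'
    (fun S v => ∑ R ∈ S.1.powerset.filter (fun R => R.card ≤ k),
      cel n (Yt (t S.1 (π ∅ v)) (a (π R v)) (x (π R v)))) (fun v => K (π ∅ v)) hI.nn
  have hterm : ∀ S : {S : Finset (Fin (2 * k + 1)) // S.card ≤ k + 1},
      CH μ' (fun v => ∑ R ∈ S.1.powerset.filter (fun R => R.card ≤ k),
        cel n (Yt (t S.1 (π ∅ v)) (a (π R v)) (x (π R v)))) (fun v => K (π ∅ v)) ≤
        (ν + 4 ^ (2 * k + 3) * s) * n := by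
    rintro ⟨S, hS⟩
    by_cases hS0 : S = ∅
    · subst hS0
      have e1 : (fun v => ∑ R ∈ (∅ : Finset (Fin (2 * k + 1))).powerset.filter (fun R => R.card ≤ k),
          cel n (Yt (t ∅ (π ∅ v)) (a (π R v)) (x (π R v)))) =
          fun v => cel n (Yt (t ∅ (π ∅ v)) (a (π ∅ v)) (x (π ∅ v))) := by
        funext v
        have e0 : (∅ : Finset (Fin (2 * k + 1))).powerset.filter (fun R => R.card ≤ k) = {∅} := by
          rw [Finset.powerset_empty]
          ext R
          rw [Finset.mem_filter, Finset.mem_singleton]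
          constructor
          · exact fun h => h.1
          · intro h
            subst h
            simp
        rw [e0, Finset.sum_singleton]
      change CH μ' (fun v => ∑ R ∈ (∅ : Finset (Fin (2 * k + 1))).powerset.filter (fun R => R.card ≤ k),
          cel n (Yt (t ∅ (π ∅ v)) (a (π R v)) (x (π R v)))) (fun v => K (π ∅ v)) ≤ _
      rw [e1]
      have e2 := (h6.1 Ω Ω' (Fin m → ℤ) kt μ' (π ∅) (fun ω => cel n (Yt (t ∅ ω) (a ω) (x ω))) K
        hI.nn).2.2
      rw [hI.pu ∅] at e2
      rw [← e2]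
      have e3 := h5.2.1 Ω (Fin m → ℤ) ct kt μ (fun ω => cel n (Yt (t ∅ ω) (a ω) (x ω))) c K hcd.nn
        hcd.kc
      have e4 := hcd.h0
      have e5 : (1 : ℝ) ≤ 4 ^ (2 * k + 3) := one_le_pow₀ (by norm_num)
      have e6 : s * n ≤ 4 ^ (2 * k + 3) * (s * n) := le_mul_of_one_le_left hsn e5
      nlinarith [e3, e4, e6]
    · set F : Finset (Finset (Fin (2 * k + 1))) := S.powerset.filter (fun R => R.card ≤ k) with hF
      have hFne : F.Nonempty := ⟨∅, by rw [hF, Finset.mem_filter]; simp⟩
      have hkv := h2 Ω Ω' (Fin m → ℤ) ct kt ((Fin m → ℝ) × (Fin m → ℝ)) (Finset (Fin (2 * k + 1))) μ μ'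
        π K c (fun ω => (a ω, x ω)) (Λ S) (fun ω => cel n (Yt (t S ω) (a ω) (x ω))) ∅ F hcd.nn hI
        hcd.kc (hcd.kl S hS0) (by
          intro ω ω' hω hω' he
          simp only [Prod.mk.injEq] at he
          obtain ⟨⟨ha, hx⟩, hc⟩ := he
          have ht := hcd.ct S ω ω' hω hω' hc
          change cel n (Yt (t S ω) (a ω) (x ω)) = cel n (Yt (t S ω') (a ω') (x ω'))
          rw [ha, hx, ht]) hFne
      have hdep := h5.1 Ω' (Fin m → ℤ) (Fin m → ℤ) kt μ'
        (fun v => ∑ R ∈ F, cel n (Yt (t S (π ∅ v)) (a (π R v)) (x (π R v))))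
        (fun v => ∑ r ∈ F, cel n (Yt (t S (π r v)) (a (π r v)) (x (π r v))))
        (fun v => K (π ∅ v)) hI.nn (by
          have hval : ∀ v, μ' v ≠ 0 → ∑ R ∈ F, cel n (Yt (t S (π ∅ v)) (a (π R v)) (x (π R v))) =
              ∑ r ∈ F, cel n (Yt (t S (π r v)) (a (π r v)) (x (π r v))) := by
            intro v hv
            apply Finset.sum_congr rfl
            intro R _
            have e := hdt S (π ∅ v) (π R v) (hI.su v hv ∅) (hI.su v hv R) (hI.eq v hv ∅ R)
            rw [e]
          intro v v' hv hv' he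
          simp only [Prod.mk.injEq] at he
          change ∑ R ∈ F, cel n (Yt (t S (π ∅ v)) (a (π R v)) (x (π R v))) =
            ∑ R ∈ F, cel n (Yt (t S (π ∅ v')) (a (π R v')) (x (π R v')))
          rw [hval v hv, hval v' hv']
          exact he.1)
      have eY : (fun ω => Λ S ω + cel n (Yt (t S ω) (a ω) (x ω))) =
          fun ω => Yn n (t S ω) (a ω) (x ω) (Λ S ω) := by
        funext ω
        unfold Yn
        rw [add_comm]
      rw [eY] at hkv
      have e1 := hcd.hy S hS0
      have e2 := hcd.hl S hS0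
      have e3 := hcd.hi
      have hFc : (F.card : ℝ) ≤ 2 ^ (2 * k + 1) := by
        have e4 : F.card ≤ 2 ^ (2 * k + 1) := by
          refine (Finset.card_filter_le _ _).trans ?_
          rw [Finset.card_powerset]
          apply Nat.pow_le_pow_right (by norm_num)
          have := Finset.card_le_univ S
          rwa [Fintype.card_fin] at this
        exact_mod_cast e4
      have hF0 : (0 : ℝ) ≤ F.card := Nat.cast_nonneg _
      change CH μ' (fun v => ∑ R ∈ F, cel n (Yt (t S (π ∅ v)) (a (π R v)) (x (π R v))))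
        (fun v => K (π ∅ v)) ≤ _
      refine (hdep.trans hkv).trans ?_
      have b1 : (F.card : ℝ) * ((CH μ (fun ω => Yn n (t S ω) (a ω) (x ω) (Λ S ω)) c -
          CH μ (Λ S) (fun ω => ((a ω, x ω), c ω))) + F.card * MI μ (fun ω => (a ω, x ω)) K c) ≤
          F.card * (2 * (s * n) + F.card * (s * n)) := by
        apply mul_le_mul_of_nonneg_left _ hF0
        have b2 : (F.card : ℝ) * MI μ (fun ω => (a ω, x ω)) K c ≤ F.card * (s * n) :=
          mul_le_mul_of_nonneg_left e3 hF0
        nlinarith [b2, e1, e2]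
      have b3 : (F.card : ℝ) * (2 * (s * n) + F.card * (s * n)) + s * n ≤
          4 ^ (2 * k + 3) * (s * n) := by
        have b4 : (F.card : ℝ) * (2 * (s * n) + F.card * (s * n)) + s * n =
            ((F.card : ℝ) + 1) ^ 2 * (s * n) := by ring
        rw [b4]
        apply mul_le_mul_of_nonneg_right _ hsn
        have b5 : (F.card : ℝ) + 1 ≤ 2 ^ (2 * k + 2) := by
          have : (1 : ℝ) ≤ 2 ^ (2 * k + 1) := one_le_pow₀ (by norm_num)
          have e : (2 : ℝ) ^ (2 * k + 2) = 2 ^ (2 * k + 1) + 2 ^ (2 * k + 1) := by ring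
          rw [e]
          linarith
        calc ((F.card : ℝ) + 1) ^ 2 ≤ (2 ^ (2 * k + 2)) ^ 2 :=
              pow_le_pow_left₀ (by linarith) b5 2
          _ = 4 ^ (2 * k + 2) := by
              rw [← pow_mul, mul_comm (2 * k + 2) 2, pow_mul]
              norm_num
          _ ≤ 4 ^ (2 * k + 3) := pow_le_pow_right₀ (by norm_num) (by omega)
      have b6 : (ν + 4 ^ (2 * k + 3) * s) * n = ν * n + 4 ^ (2 * k + 3) * (s * n) := by ring
      rw [b6]
      have b7 : (ν + s) * n = ν * n + s * n := by ring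
      linarith
  have hsum : ∑ S : {S : Finset (Fin (2 * k + 1)) // S.card ≤ k + 1},
      CH μ' (fun v => ∑ R ∈ S.1.powerset.filter (fun R => R.card ≤ k),
        cel n (Yt (t S.1 (π ∅ v)) (a (π R v)) (x (π R v)))) (fun v => K (π ∅ v)) ≤
      (4 ^ k + ((2 * k + 1).choose (k + 1) : ℝ)) * ((ν + 4 ^ (2 * k + 3) * s) * n) := by
    refine (Finset.sum_le_sum fun S _ => hterm S).trans ?_
    rw [Finset.sum_const, nsmul_eq_mul, inq_card]
  have hx := hcd.hx
  have h4k : (0 : ℝ) ≤ 4 ^ k := by positivity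
  have hfirst : 4 ^ k * ((γ + ν - s) * n - m * (w + (k + 1) * κ * n + (2 * k + 1) * s * n)) - C ≤
      4 ^ k * (CH μ (fun ω => cel n (x ω)) K -
        m * (w + (k + 1) * κ * n + (2 * k + 1) * s * n)) - C := by
    have := mul_le_mul_of_nonneg_left (sub_le_sub_right hx
      (m * (w + (k + 1) * κ * n + (2 * k + 1) * s * n) : ℝ)) h4k
    linarith
  exact hfirst.trans (hlow.trans (hsub.trans hsum))

end Pool.Agent.Helper91.HK
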